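import Pool.Agent.Helper24.AB.AN.Goals

/-! # Project AB (helper24), packet ANM: main theorem of module AN -/

open MeasureTheory Set Filter Topology
open scoped ContDiff

noncomputable section

namespace Pool.Agent.Helper62.AB

open Pool.Agent.Helper24.AB

theorem isOpen_strip (a : ℝ) : IsOpen (strip a) :=
  isOpen_lt Complex.continuous_re.abs continuous_const

theorem strip_add {a h : ℝ} {w : ℂ} (hw : w ∈ strip a) : w + h * Complex.I ∈ strip a := by
  simpa [strip] using hw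

theorem mp_trans (a h : ℝ) :
    MeasurePreserving (fun w : ℂ => w + h * Complex.I) (muS a) (muS a) := by
  have h1 : MeasurePreserving (fun w : ℂ => w + h * Complex.I) volume volume :=
    measurePreserving_add_right volume _
  have h2 := h1.restrict_preimage (isOpen_strip a).measurableSet
  have h3 : (fun w : ℂ => w + h * Complex.I) ⁻¹' strip a = strip a := by
    ext w
    simp [strip]
  rwa [h3] at h2

theorem aesm_Dh {a h : ℝ} {X : ℂ → ℂ} (hX : AEStronglyMeasurable X (muS a)) :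
    AEStronglyMeasurable (Dh h X) (muS a) := by
  have h1 : AEStronglyMeasurable (fun w => X (w + h * Complex.I)) (muS a) :=
    hX.comp_measurePreserving (mp_trans a h)
  have h2 := (h1.sub hX).mul_const ((h : ℂ)⁻¹)
  refine h2.congr (ae_of_all _ fun w => ?_)
  simp only [Dh, Pi.sub_apply, div_eq_mul_inv]

theorem aesm_Dhk {a h : ℝ} {X : ℂ → ℂ} (hX : AEStronglyMeasurable X (muS a)) (k : ℕ) :
    AEStronglyMeasurable ((Dh h)^[k] X) (muS a) := by
  induction k with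
  | zero => exact hX
  | succ k ih => rw [Function.iterate_succ_apply']; exact aesm_Dh ih

theorem Dh_congr {a h : ℝ} {X Y : ℂ → ℂ} (hXY : X =ᵐ[muS a] Y) : Dh h X =ᵐ[muS a] Dh h Y := by
  have h1 : ∀ᵐ w ∂(muS a), X (w + h * Complex.I) = Y (w + h * Complex.I) :=
    (mp_trans a h).quasiMeasurePreserving.ae hXY
  filter_upwards [h1, hXY] with w hw1 hw2
  simp only [Dh, hw1, hw2]

theorem Dhk_congr {a h : ℝ} {X Y : ℂ → ℂ} (hXY : X =ᵐ[muS a] Y) (k : ℕ) :
    (Dh h)^[k] X =ᵐ[muS a] (Dh h)^[k] Y := by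
  induction k with
  | zero => exact hXY
  | succ k ih =>
    rw [Function.iterate_succ_apply', Function.iterate_succ_apply']
    exact Dh_congr ih

theorem Dhk_sub (h : ℝ) (X Y : ℂ → ℂ) (k : ℕ) :
    (Dh h)^[k] (fun w => X w - Y w) = fun w => (Dh h)^[k] X w - (Dh h)^[k] Y w := by
  induction k with
  | zero => rfl
  | succ k ih =>
    rw [Function.iterate_succ_apply', ih, Function.iterate_succ_apply',
      Function.iterate_succ_apply']
    funext w
    simp only [Dh]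
    ring

theorem URap_congr {a : ℝ} {ι : Type} {W : ι → ℝ → ℝ} {X Y : ι → ℂ → ℂ}
    (hXY : ∀ j, X j =ᵐ[muS a] Y j) (hX : URap a W X) : URap a W Y := by
  refine ⟨fun j => (hX.1 j).congr (hXY j), fun N => ?_⟩
  obtain ⟨C, hC⟩ := hX.2 N
  refine ⟨C, fun j => ?_⟩
  have : eLpNorm (fun w => ((W j w.im) ^ N : ℝ) • Y j w) 2 (muS a) =
      eLpNorm (fun w => ((W j w.im) ^ N : ℝ) • X j w) 2 (muS a) := by
    refine eLpNorm_congr_ae ?_
    filter_upwards [hXY j] with w hw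
    rw [hw]
  rw [this]
  exact hC j

theorem lintegral_strip_im {a : ℝ} (ha : 0 < a) (g : ℝ → ENNReal) (hg : Measurable g) :
    ∫⁻ w in strip a, g w.im = ENNReal.ofReal (2 * a) * ∫⁻ t, g t := by
  have h1 := Complex.volume_preserving_equiv_real_prod
  have h2 : strip a = Complex.measurableEquivRealProd ⁻¹' (Ioo (-a) a ×ˢ univ) := by
    ext w
    simp [strip, Complex.measurableEquivRealProd, abs_lt]
  have h3 : ∫⁻ w in strip a, g w.im =
      ∫⁻ p in Ioo (-a) a ×ˢ (univ : Set ℝ), g p.2 := by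
    rw [h2]
    have h4 := h1.setLIntegral_comp_preimage_emb
      (Complex.measurableEquivRealProd.measurableEmbedding) (fun p : ℝ × ℝ => g p.2)
      (Ioo (-a) a ×ˢ univ)
    rw [← h4]
    rfl
  rw [h3, Measure.volume_eq_prod, ← Measure.prod_restrict, Measure.restrict_univ,
    lintegral_prod (fun p : ℝ × ℝ => g p.2) (hg.comp measurable_snd).aemeasurable]
  simp only [lintegral_const, Measure.restrict_apply MeasurableSet.univ, univ_inter,
    Real.volume_Ioo]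
  rw [mul_comm]
  congr 2
  ring

theorem eLp_le {a : ℝ} (ha : 0 < a) {W : ℝ → ℝ} {X : ℂ → ℂ} {B D : ℝ} (hW : Continuous W)
    (hW1 : ∀ t, 1 ≤ W t) (hi : Integrable fun t => (W t ^ 2)⁻¹) (hB : ∫ t, (W t ^ 2)⁻¹ ≤ B)
    (N : ℕ) (hX : ∀ w ∈ strip a, ‖X w‖ * W w.im ^ (N + 1) ≤ D) :
    eLpNorm (fun w => ((W w.im) ^ N : ℝ) • X w) 2 (muS a) ≤
      ENNReal.ofReal (Real.sqrt (D ^ 2 * (2 * a * B))) := by
  have hgm : Measurable fun t => ENNReal.ofReal (D ^ 2 * (W t ^ 2)⁻¹) := by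
    have : Measurable W := hW.measurable
    fun_prop
  have hB0 : 0 ≤ B := (integral_nonneg fun t => by positivity).trans hB
  rw [eLpNorm_eq_lintegral_rpow_enorm_toReal (by norm_num) (by norm_num)]
  simp only [ENNReal.toReal_ofNat, one_div]
  have h1 : ∫⁻ w in strip a, ‖((W w.im) ^ N : ℝ) • X w‖ₑ ^ (2 : ℝ) ≤
      ∫⁻ w in strip a, ENNReal.ofReal (D ^ 2 * (W w.im ^ 2)⁻¹) := by
    refine setLIntegral_mono (hgm.comp Complex.measurable_im) fun w hw => ?_
    have hpos : 0 < W w.im := lt_of_lt_of_le one_pos (hW1 _)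
    have h2 : ‖((W w.im) ^ N : ℝ) • X w‖ ≤ D * (W w.im)⁻¹ := by
      rw [norm_smul, Real.norm_of_nonneg (by positivity), ← div_eq_mul_inv, le_div_iff₀ hpos]
      have := hX w hw
      rw [pow_succ] at this
      linarith
    have h3 : ‖((W w.im) ^ N : ℝ) • X w‖ ^ 2 ≤ D ^ 2 * (W w.im ^ 2)⁻¹ := by
      have := pow_le_pow_left₀ (norm_nonneg _) h2 2
      rw [mul_pow, inv_pow] at this
      exact this
    rw [← ofReal_norm, ENNReal.ofReal_rpow_of_nonneg (norm_nonneg _) (by norm_num)]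
    refine ENNReal.ofReal_le_ofReal ?_
    rw [show (2 : ℝ) = ((2 : ℕ) : ℝ) by norm_num, Real.rpow_natCast]
    exact h3
  have h4 : ∫⁻ w in strip a, ENNReal.ofReal (D ^ 2 * (W w.im ^ 2)⁻¹) ≤
      ENNReal.ofReal (D ^ 2 * (2 * a * B)) := by
    rw [lintegral_strip_im ha (fun t => ENNReal.ofReal (D ^ 2 * (W t ^ 2)⁻¹)) hgm,
      ← ofReal_integral_eq_lintegral_ofReal (hi.const_mul _)
        (ae_of_all _ fun t => by positivity), integral_const_mul,
      ← ENNReal.ofReal_mul (by positivity)]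
    refine ENNReal.ofReal_le_ofReal ?_
    have h5 : 0 ≤ D ^ 2 * (2 * a) := by positivity
    nlinarith [mul_le_mul_of_nonneg_left hB h5]
  have h6 := ENNReal.rpow_le_rpow (h1.trans h4) (show (0 : ℝ) ≤ 2⁻¹ by norm_num)
  refine h6.trans (le_of_eq ?_)
  rw [ENNReal.ofReal_rpow_of_nonneg (by positivity) (by norm_num), Real.sqrt_eq_rpow]
  norm_num

/-- the point `σ + it` -/
theorem mem_strip_pt {a σ : ℝ} (h : |σ| < a) (t : ℝ) : (σ : ℂ) + t * Complex.I ∈ strip a := by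
  simpa [strip] using h

theorem pt_eq (w : ℂ) : ((w.re : ℝ) : ℂ) + (w.im : ℝ) * Complex.I = w := Complex.re_add_im w

theorem Dhk_slice (h σ : ℝ) (g : ℂ → ℂ) (k : ℕ) : ∀ t : ℝ, (Dh h)^[k] g (σ + t * Complex.I) =
    (fun g : ℝ → ℂ => fun t => (g (t + h) - g t) / h)^[k] (fun t => g (σ + t * Complex.I)) t := by
  induction k with
  | zero => exact fun t => rfl
  | succ k ih =>
    intro t
    rw [Function.iterate_succ_apply', Function.iterate_succ_apply']
    simp only [Dh]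
    rw [← ih t, ← ih (t + h)]
    have : (σ : ℂ) + t * Complex.I + h * Complex.I = σ + ((t + h : ℝ) : ℂ) * Complex.I := by
      push_cast; ring
    rw [this]

theorem smooth_dT {a : ℝ} {g : ℂ → ℂ} (hg : ContDiffOn ℝ ∞ g (strip a)) :
    ContDiffOn ℝ ∞ (dT g) (strip a) :=
  (hg.fderiv_of_isOpen (isOpen_strip a) (by simp)).clm_apply contDiffOn_const

theorem smooth_dS {a : ℝ} {g : ℂ → ℂ} (hg : ContDiffOn ℝ ∞ g (strip a)) :
    ContDiffOn ℝ ∞ (dS g) (strip a) :=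
  (hg.fderiv_of_isOpen (isOpen_strip a) (by simp)).clm_apply contDiffOn_const

theorem smooth_dTk {a : ℝ} {g : ℂ → ℂ} (hg : ContDiffOn ℝ ∞ g (strip a)) (k : ℕ) :
    ContDiffOn ℝ ∞ (dT^[k] g) (strip a) := by
  induction k with
  | zero => exact hg
  | succ k ih => rw [Function.iterate_succ_apply']; exact smooth_dT ih

theorem smooth_dz {a : ℝ} {Φ : ℂ → ℝ} (hΦ : ContDiffOn ℝ ∞ Φ (strip a)) :
    ContDiffOn ℝ ∞ (dz fun w => (Φ w : ℂ)) (strip a) := by
  have h1 : ContDiffOn ℝ ∞ (fun w => (Φ w : ℂ)) (strip a) :=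
    Complex.ofRealCLM.contDiff.comp_contDiffOn hΦ
  have h2 : ContDiffOn ℝ ∞ (fun w => (dS (fun w => (Φ w : ℂ)) w -
      Complex.I * dT (fun w => (Φ w : ℂ)) w) / 2) (strip a) := by
    have h3 := ((smooth_dS h1).sub ((contDiffOn_const (c := Complex.I)).mul (smooth_dT h1))).mul
      (contDiffOn_const (c := (2 : ℂ)⁻¹))
    refine h3.congr fun w _ => ?_
    rw [div_eq_mul_inv]
  exact h2

theorem hasDerivAt_slice {a σ : ℝ} (hσ : |σ| < a) {g : ℂ → ℂ}
    (hg : ContDiffOn ℝ ∞ g (strip a)) (t : ℝ) :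
    HasDerivAt (fun t : ℝ => g (σ + t * Complex.I)) (dT g (σ + t * Complex.I)) t := by
  have h1 : ContDiffAt ℝ ∞ g (σ + t * Complex.I) :=
    hg.contDiffAt ((isOpen_strip a).mem_nhds (mem_strip_pt hσ t))
  have h2 := (h1.differentiableAt (by simp)).hasFDerivAt
  have h3 : HasDerivAt (fun t : ℝ => (σ : ℂ) + t * Complex.I) Complex.I t := by
    have := ((Complex.ofRealCLM.hasDerivAt (x := t)).mul_const Complex.I).const_add (σ : ℂ)
    simpa using this
  exact h2.comp_hasDerivAt t h3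

theorem dTk_slice {a σ : ℝ} (hσ : |σ| < a) {g : ℂ → ℂ} (hg : ContDiffOn ℝ ∞ g (strip a))
    (k : ℕ) : ∀ t : ℝ, iteratedDeriv k (fun t : ℝ => g (σ + t * Complex.I)) t =
      dT^[k] g (σ + t * Complex.I) := by
  induction k with
  | zero => exact fun t => by simp
  | succ k ih =>
    intro t
    rw [iteratedDeriv_succ, Function.iterate_succ_apply', funext ih]
    exact (hasDerivAt_slice hσ (smooth_dTk hg k) t).deriv

theorem smooth_slice {a σ : ℝ} (hσ : |σ| < a) {g : ℂ → ℂ} (hg : ContDiffOn ℝ ∞ g (strip a)) :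
    ContDiff ℝ ∞ (fun t : ℝ => g (σ + t * Complex.I)) := by
  have h1 : ContDiff ℝ ∞ (fun t : ℝ => (σ : ℂ) + t * Complex.I) :=
    contDiff_const.add (Complex.ofRealCLM.contDiff.mul contDiff_const)
  rw [← contDiffOn_univ]
  exact hg.comp h1.contDiffOn fun t _ => mem_strip_pt hσ t

theorem cont_Dh {a h : ℝ} {g : ℂ → ℂ} (hg : ContinuousOn g (strip a)) :
    ContinuousOn (Dh h g) (strip a) := by
  have h1 : ContinuousOn (fun w : ℂ => g (w + h * Complex.I)) (strip a) :=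
    hg.comp (continuous_id.add continuous_const).continuousOn fun w hw => strip_add hw
  have h2 := (h1.sub hg).mul (continuousOn_const (c := ((h : ℂ))⁻¹))
  refine h2.congr fun w _ => ?_
  rw [Dh, div_eq_mul_inv]
  rfl

theorem cont_Dhk {a h : ℝ} {g : ℂ → ℂ} (hg : ContinuousOn g (strip a)) (k : ℕ) :
    ContinuousOn ((Dh h)^[k] g) (strip a) := by
  induction k with
  | zero => exact hg
  | succ k ih => rw [Function.iterate_succ_apply']; exact cont_Dh ih

theorem cont_Dop {a : ℝ} {Φ : ℂ → ℝ} {φ : ℂ → ℂ} (hΦ : ContDiffOn ℝ ∞ Φ (strip a))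
    (hφ : IsTest a φ) : Continuous (Dop Φ φ) := by
  have hφs : ContDiffOn ℝ ∞ φ (strip a) := hφ.1.contDiffOn
  have c1 : ContinuousOn (Dop Φ φ) (strip a) := by
    have h1 : ContinuousOn (fun w => (dS φ w - Complex.I * dT φ w) / 2) (strip a) := by
      have h3 := ((smooth_dS hφs).continuousOn.sub
        ((continuousOn_const (c := Complex.I)).mul (smooth_dT hφs).continuousOn)).mul
        (continuousOn_const (c := (2 : ℂ)⁻¹))
      refine h3.congr fun w _ => ?_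
      rw [div_eq_mul_inv]
      rfl
    exact h1.neg.add ((smooth_dz hΦ).continuousOn.mul hφs.continuousOn)
  rw [continuous_iff_continuousAt]
  intro w
  by_cases hw : w ∈ tsupport φ
  · exact c1.continuousAt ((isOpen_strip a).mem_nhds (hφ.2.2 hw))
  · have h1 : φ =ᶠ[𝓝 w] fun _ => 0 := notMem_tsupport_iff_eventuallyEq.1 hw
    have h2 : Dop Φ φ =ᶠ[𝓝 w] fun _ => 0 := by
      filter_upwards [h1.eventuallyEq_nhds] with v hv
      have h3 : fderiv ℝ φ v = 0 := by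
        rw [hv.fderiv_eq]
        simp
      simp [Dop, dz, dS, dT, h3, hv.eq_of_nhds]
    exact h2.continuousAt

theorem memLp_Dop {a : ℝ} {Φ : ℂ → ℝ} {φ : ℂ → ℂ} (hΦ : ContDiffOn ℝ ∞ Φ (strip a))
    (hφ : IsTest a φ) : MemLp (Dop Φ φ) 2 (muS a) := by
  have hc : HasCompactSupport (Dop Φ φ) := by
    refine HasCompactSupport.of_support_subset_isCompact hφ.2.1 fun w hw => ?_
    by_contra h
    refine hw ?_
    have h1 : φ =ᶠ[𝓝 w] fun _ => 0 := notMem_tsupport_iff_eventuallyEq.1 h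
    have h3 : fderiv ℝ φ w = 0 := by
      rw [h1.fderiv_eq]
      simp
    simp [Dop, dz, dS, dT, h3, h1.eq_of_nhds]
  exact ((cont_Dop hΦ hφ).memLp_of_hasCompactSupport hc).restrict _

/-- polynomial growth of the difference quotients of `∂Φ` -/
theorem upol_ch {a : ℝ} {ι : Type} {Φ : ι → ℂ → ℝ} {W : ι → ℝ → ℝ} (hMVT : S_MVT)
    (hW : IsWt W) (hΦ : ∀ j, ContDiffOn ℝ ∞ (Φ j) (strip a))
    (hd : ∀ k : ℕ, 1 ≤ k → ∃ (C : ℝ) (N : ℕ), ∀ j, ∀ w ∈ strip a,
      ‖dT^[k] (dz (fun w => (Φ j w : ℂ))) w‖ ≤ C * W j w.im ^ N) (k : ℕ) :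
    UPol (ι := ι × Ioc (0 : ℝ) 1) a (fun q => W q.1)
      (fun q => (Dh q.2.1)^[k] (ch (Φ q.1) q.2.1)) := by
  have he : ∀ q : ι × Ioc (0 : ℝ) 1, (Dh q.2.1)^[k] (ch (Φ q.1) q.2.1) =
      (Dh q.2.1)^[k + 1] (dz (fun w => (Φ q.1 w : ℂ))) := by
    intro q
    rw [Function.iterate_succ_apply]
    rfl
  obtain ⟨C, N, hC⟩ := hd (k + 1) (by omega)
  refine ⟨fun q => ?_, |C| * Real.exp ((k + 1 : ℕ) : ℝ) ^ N, N, fun q w hw => ?_⟩
  · change ContinuousOn ((Dh q.2.1)^[k] (ch (Φ q.1) q.2.1)) (strip a)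
    rw [he]
    exact cont_Dhk (smooth_dz (hΦ q.1)).continuousOn _
  · change ‖(Dh q.2.1)^[k] (ch (Φ q.1) q.2.1) w‖ ≤
      |C| * Real.exp ((k + 1 : ℕ) : ℝ) ^ N * W q.1 w.im ^ N
    rw [he]
    have hσ : |w.re| < a := hw
    have hh : 0 < q.2.1 := q.2.2.1
    have hh1 : q.2.1 ≤ 1 := q.2.2.2
    have h1 := Dhk_slice q.2.1 w.re (dz (fun w => (Φ q.1 w : ℂ))) (k + 1) w.im
    rw [pt_eq] at h1
    rw [h1]
    refine hMVT _ _ _ _ _ hh (smooth_slice hσ (smooth_dz (hΦ q.1))) fun s hs0 hs => ?_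
    rw [dTk_slice hσ (smooth_dz (hΦ q.1))]
    have h2 := hC q.1 _ (mem_strip_pt hσ (w.im + s))
    have h3 : (((w.re : ℝ) : ℂ) + ((w.im + s : ℝ) : ℂ) * Complex.I).im = w.im + s := by simp
    rw [h3] at h2
    refine h2.trans ?_
    have h4 : W q.1 (w.im + s) ≤ Real.exp ((k + 1 : ℕ) : ℝ) * W q.1 w.im := by
      refine (hW.slow q.1 w.im s).trans (mul_le_mul_of_nonneg_right ?_
        (zero_le_one.trans (hW.one_le _ _)))
      refine Real.exp_le_exp.2 ?_
      rw [abs_of_nonneg hs0]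
      refine hs.trans ?_
      have : ((k + 1 : ℕ) : ℝ) * q.2.1 ≤ ((k + 1 : ℕ) : ℝ) * 1 :=
        mul_le_mul_of_nonneg_left hh1 (by positivity)
      linarith
    have h5 : 0 ≤ W q.1 (w.im + s) := zero_le_one.trans (hW.one_le _ _)
    calc C * W q.1 (w.im + s) ^ N ≤ |C| * W q.1 (w.im + s) ^ N :=
          mul_le_mul_of_nonneg_right (le_abs_self C) (by positivity)
      _ ≤ |C| * (Real.exp ((k + 1 : ℕ) : ℝ) * W q.1 w.im) ^ N :=
          mul_le_mul_of_nonneg_left (pow_le_pow_left₀ h5 h4 N) (abs_nonneg _)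
      _ = |C| * Real.exp ((k + 1 : ℕ) : ℝ) ^ N * W q.1 w.im ^ N := by rw [mul_pow]; ring

theorem anm (hSOL : S_SOL) (hWEA : S_WEA) (hIND : S_IND) (hMVT : S_MVT) (hWEYL : S_WEYL)
    (hORT : S_ORT) (hFAT : S_FAT) (hURAP : S_URAP) : S_ANM := by
  intro a ι Φ W F ha hW hΦ hlap hHW hint hd hFm hF
  -- the family indexed by `(j, h)`
  let Φ' : ι × Ioc (0 : ℝ) 1 → ℂ → ℝ := fun q => Φ q.1
  let W' : ι × Ioc (0 : ℝ) 1 → ℝ → ℝ := fun q => W q.1
  have hW' : IsWt W' := ⟨fun q => hW.one_le q.1, fun q => hW.cont q.1, fun q => hW.slow q.1⟩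
  have hHW' : HasWeights a Φ' W' := by
    intro N
    obtain ⟨C, N', h⟩ := hHW N
    exact ⟨C, N', fun q => h q.1⟩
  have hWE' : WE a Φ' W' := hWEA a _ Φ' W' ha hW' (fun q => hΦ q.1) (fun q => hlap q.1) hHW'
  obtain ⟨-, hsub, -, -, -, -, hmem⟩ := hURAP a _ W' ha hW'
  -- `F` is rapid
  have hFr : ∀ k : ℕ, URap a W' (fun q => (Dh q.2.1)^[k] (F q.1)) := by
    intro k
    refine ⟨fun q => aesm_Dhk (hFm q.1) k, fun N => ?_⟩
    obtain ⟨B, hB⟩ := hint
    obtain ⟨D, hD⟩ := hF k (N + 1)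
    refine ⟨Real.toNNReal (Real.sqrt (D ^ 2 * (2 * a * B))), fun q => ?_⟩
    exact eLp_le ha (hW.cont q.1) (hW.one_le q.1) (hB q.1).1 (hB q.1).2 N
      (fun w hw => hD q.1 q.2.1 q.2.2.1 q.2.2.2 w hw)
  have h1mem : (1 : ℝ) ∈ Ioc (0 : ℝ) 1 := ⟨one_pos, le_rfl⟩
  have hFL : ∀ j, MemLp (F j) 2 (muS a) := fun j => hmem _ (hFr 0) (j, ⟨1, h1mem⟩)
  -- the solution
  have hsol : ∀ j, ∃ z y, InDom a (Φ j) z y ∧ Eqn a (Φ j) y (fun _ => 0) (F j) := fun j =>
    hSOL a (Φ j) _ _ ha (hΦ j) (hlap j) (MemLp.zero) (hFL j)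
  choose z y hzy using hsol
  have hind := hIND a _ Φ' W' (fun q => q.2.1) (fun q => z q.1) (fun q => y q.1)
    (fun q => F q.1) ha hW' (fun q => q.2.2) (fun q => hΦ q.1) hWE'
    (upol_ch hMVT hW hΦ hd) hFr (fun q => hzy q.1)
  -- the holomorphic part
  have hg : ∀ j, ∃ g : ℂ → ℂ, DifferentiableOn ℂ g (strip a) ∧
      (fun w => F j w - y j w) =ᵐ[muS a] fun w => (Real.exp (-(Φ j w)) : ℂ) * g w := by
    intro j
    refine hWEYL a (Φ j) _ ha (hΦ j) ((hFL j).sub (hzy j).1.memy) fun φ hφ => ?_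
    have h1 := (hzy j).2 φ hφ
    have m1 : MemLp (fun w => (starRingEnd ℂ) (Dop (Φ j) φ w)) 2 (muS a) :=
      (memLp_Dop (hΦ j) hφ).star
    have i1 : Integrable (fun w => F j w * (starRingEnd ℂ) (Dop (Φ j) φ w)) (muS a) :=
      (hFL j).integrable_mul m1
    have i2 : Integrable (fun w => y j w * (starRingEnd ℂ) (Dop (Φ j) φ w)) (muS a) :=
      (hzy j).1.memy.integrable_mul m1
    simp only [sub_mul]
    rw [integral_sub i1 i2, h1]
    simp
  choose g hgh hge using hg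
  refine ⟨g, hgh, ?_, ?_⟩
  · -- the bounds
    have hGs : ∀ j, ContDiffOn ℝ ∞ (fun w => (Real.exp (-(Φ j w)) : ℂ) * g j w) (strip a) := by
      intro j
      have h1 : ContDiffOn ℝ ∞ (fun w => Real.exp (-(Φ j w))) (strip a) :=
        Real.contDiff_exp.comp_contDiffOn (hΦ j).neg
      have h2 : ContDiffOn ℝ ∞ (fun w => (Real.exp (-(Φ j w)) : ℂ)) (strip a) :=
        Complex.ofRealCLM.contDiff.comp_contDiffOn h1
      have h3 : ContDiffOn ℝ ∞ (g j) (strip a) :=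
        ((hgh j).contDiffOn (isOpen_strip a)).restrict_scalars ℝ
      exact h2.mul h3
    refine hFAT a ι W _ ha hW hGs fun k => ?_
    refine URap_congr (fun q => ?_) (hsub _ _ (hFr k) (hind k).2)
    have h1 := Dhk_congr (h := q.2.1) (hge q.1) k
    rw [Dhk_sub] at h1
    exact h1
  · -- orthogonality
    intro j h hh hhL
    have h1 := hORT a (Φ j) (z j) (y j) h ha (hΦ j) (hzy j).1 hh hhL
    rw [← h1]
    refine integral_congr_ae ?_
    filter_upwards [hge j] with w hw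
    rw [← hw]
    ring

end Pool.Agent.Helper62.AB
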