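import Pool.Agent.Helper95.AB.GoalsW

/-! Project AB, packet CELL: the barrier estimate on one cell. -/

open MeasureTheory Set Filter Topology
open scoped ContDiff

noncomputable section

namespace Pool.Agent.Helper62.AB

namespace Cell

open Pool.Agent.Helper24.AB Pool.Agent.Helper95.AB

/-! ## Continuity -/

theorem contDiffOn_dS {E : Type*} [NormedAddCommGroup E] [NormedSpace ℝ E] {f : ℂ → E} {O : Set ℂ}
    (hO : IsOpen O) (hf : ContDiffOn ℝ ∞ f O) : ContDiffOn ℝ ∞ (dS f) O := by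
  have h : ContDiffOn ℝ ∞ (fderiv ℝ f) O := hf.fderiv_of_isOpen hO (by simp)
  exact h.clm_apply contDiffOn_const

theorem contDiffOn_dT {E : Type*} [NormedAddCommGroup E] [NormedSpace ℝ E] {f : ℂ → E} {O : Set ℂ}
    (hO : IsOpen O) (hf : ContDiffOn ℝ ∞ f O) : ContDiffOn ℝ ∞ (dT f) O := by
  have h : ContDiffOn ℝ ∞ (fderiv ℝ f) O := hf.fderiv_of_isOpen hO (by simp)
  exact h.clm_apply contDiffOn_const

theorem isOpen_strip (a : ℝ) : IsOpen (strip a) :=
  isOpen_lt (Complex.continuous_re.abs) continuous_const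

theorem continuousOn_lapC {f : ℂ → ℝ} {O : Set ℂ} (hO : IsOpen O) (hf : ContDiffOn ℝ ∞ f O) :
    ContinuousOn (lapC f) O :=
  (contDiffOn_dS hO (contDiffOn_dS hO hf)).continuousOn.add
    (contDiffOn_dT hO (contDiffOn_dT hO hf)).continuousOn

theorem continuousOn_gA {a : ℝ} {Φ : ℂ → ℝ} {φ : ℂ → ℂ} (hΦ : ContDiffOn ℝ ∞ Φ (strip a))
    (hφ : ContDiff ℝ ∞ φ) : ContinuousOn (gA Φ φ) (strip a) := by
  have h1 := (contDiffOn_dS (isOpen_strip a) hΦ).continuousOn
  have h2 := (contDiffOn_dT (isOpen_strip a) hΦ).continuousOn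
  have h3 : ContinuousOn (dS φ) (strip a) :=
    (contDiffOn_dS (isOpen_strip a) hφ.contDiffOn).continuousOn
  have h4 : ContinuousOn (dT φ) (strip a) :=
    (contDiffOn_dT (isOpen_strip a) hφ.contDiffOn).continuousOn
  have h5 : ContinuousOn φ (strip a) := hφ.continuous.continuousOn
  have h6 : ContinuousOn (fun w => ((dT Φ w : ℝ) : ℂ)) (strip a) :=
    Complex.continuous_ofReal.comp_continuousOn h2
  have h7 : ContinuousOn (fun w => ((dS Φ w : ℝ) : ℂ)) (strip a) :=
    Complex.continuous_ofReal.comp_continuousOn h1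
  exact ((h3.add ((continuousOn_const.mul h6).mul h5)).norm.pow 2).add
    ((h4.sub ((continuousOn_const.mul h7).mul h5)).norm.pow 2)

/-! ## Squares -/

/-- the closed square -/
def Q (x : ℂ) (ρ : ℝ) : Set ℂ :=
  Icc (x.re - ρ / 2) (x.re + ρ / 2) ×ℂ Icc (x.im - ρ / 2) (x.im + ρ / 2)

theorem isCompact_Q (x : ℂ) (ρ : ℝ) : IsCompact (Q x ρ) := isCompact_Icc.reProdIm isCompact_Icc

theorem sq_eq (x : ℂ) (ρ : ℝ) : sq x ρ =
    Ico (x.re - ρ / 2) (x.re + ρ / 2) ×ℂ Ico (x.im - ρ / 2) (x.im + ρ / 2) := by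
  ext w
  constructor
  · rintro ⟨h1, h2, h3, h4⟩
    exact ⟨⟨h1, h2⟩, h3, h4⟩
  · rintro ⟨⟨h1, h2⟩, h3, h4⟩
    exact ⟨h1, h2, h3, h4⟩

theorem measurableSet_sq (x : ℂ) (ρ : ℝ) : MeasurableSet (sq x ρ) := by
  rw [sq_eq]
  exact (Complex.measurable_re measurableSet_Ico).inter (Complex.measurable_im measurableSet_Ico)

theorem sq_subset_Q (x : ℂ) (ρ : ℝ) : sq x ρ ⊆ Q x ρ := by
  intro w hw
  exact ⟨⟨hw.1, hw.2.1.le⟩, ⟨hw.2.2.1, hw.2.2.2.le⟩⟩

theorem Q_subset_strip {a : ℝ} {x : ℂ} {ρ : ℝ} (h : |x.re| + ρ / 2 < a) : Q x ρ ⊆ strip a := by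
  rintro w ⟨⟨h1, h2⟩, -⟩
  change |w.re| < a
  have h3 := le_abs_self x.re
  have h4 := neg_abs_le x.re
  rw [abs_lt]
  constructor <;> linarith

theorem intOn {a : ℝ} {x : ℂ} {ρ : ℝ} (h : |x.re| + ρ / 2 < a) {f : ℂ → ℝ}
    (hf : ContinuousOn f (strip a)) : IntegrableOn f (sq x ρ) :=
  ((hf.mono (Q_subset_strip h)).integrableOn_compact (isCompact_Q x ρ)).mono_set (sq_subset_Q x ρ)

theorem ball_subset_sq (x : ℂ) {ρ r : ℝ} (h : r ≤ ρ / 2) : Metric.ball x r ⊆ sq x ρ := by
  intro w hw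
  rw [Metric.mem_ball, dist_eq_norm] at hw
  have h1 := Complex.abs_re_le_norm (w - x)
  have h2 := Complex.abs_im_le_norm (w - x)
  rw [Complex.sub_re] at h1
  rw [Complex.sub_im] at h2
  have h3 := abs_le.1 (h1.trans hw.le)
  have h4 := abs_le.1 (h2.trans hw.le)
  have h5 := abs_lt.1 (lt_of_le_of_lt h1 hw)
  have h6 := abs_lt.1 (lt_of_le_of_lt h2 hw)
  exact ⟨by linarith, by linarith, by linarith, by linarith⟩

theorem integral_sq_re (x : ℂ) {ρ : ℝ} (hρ : 0 < ρ) (f : ℝ → ℝ) :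
    ∫ w in sq x ρ, f w.re = (∫ s in (x.re - ρ / 2)..(x.re + ρ / 2), f s) * ρ := by
  have h := Complex.volume_preserving_equiv_real_prod.setIntegral_preimage_emb
    Complex.measurableEquivRealProd.measurableEmbedding (fun z : ℝ × ℝ => f z.1 * (1 : ℝ))
    (Ico (x.re - ρ / 2) (x.re + ρ / 2) ×ˢ Ico (x.im - ρ / 2) (x.im + ρ / 2))
  have e1 : Complex.measurableEquivRealProd ⁻¹'
      (Ico (x.re - ρ / 2) (x.re + ρ / 2) ×ˢ Ico (x.im - ρ / 2) (x.im + ρ / 2)) = sq x ρ := by
    rw [sq_eq]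
    rfl
  rw [e1] at h
  have e2 : ∫ w in sq x ρ, f w.re = ∫ w in sq x ρ,
      (fun z : ℝ × ℝ => f z.1 * (1 : ℝ)) (Complex.measurableEquivRealProd w) := by
    refine integral_congr_ae (Eventually.of_forall fun w => ?_)
    change f w.re = f w.re * 1
    rw [mul_one]
  rw [e2, h, Measure.volume_eq_prod, setIntegral_prod_mul (fun s => f s) (fun _ : ℝ => (1 : ℝ))]
  congr 1
  · rw [intervalIntegral.integral_of_le (by linarith), integral_Ico_eq_integral_Ioc]
  · rw [setIntegral_const, Real.volume_real_Ico_of_le (by linarith)]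
    simp

/-! ## Distance to the integers -/

theorem dZ_add (y s : ℝ) : dZ y - |s| ≤ dZ (y + s) := by
  have h1 : dZ y ≤ |y - (round (y + s) : ℤ)| := round_le y _
  have h2 : y - (round (y + s) : ℤ) = (y + s - (round (y + s) : ℤ)) - s := by ring
  rw [h2] at h1
  have h3 := abs_sub (y + s - (round (y + s) : ℤ)) s
  unfold dZ at *
  linarith

/-! ## The estimate -/

theorem final_bound {a c : ℝ} {x : ℂ} {ρ : ℝ} (h : |x.re| + ρ / 2 < a)
    {Φ : ℂ → ℝ} {φ : ℂ → ℂ} {V : ℂ → ℝ} (hΦ : ContDiffOn ℝ ∞ Φ (strip a)) (hφ : ContDiff ℝ ∞ φ)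
    (hV : ContinuousOn V (strip a)) (hV0 : ∀ w ∈ strip a, 0 ≤ V w)
    (hVΦ : ∀ w ∈ strip a, V w ≤ lapC Φ w) {A D : ℝ} (hA : A ≤ Cb c) (hA0 : 0 ≤ A) (hD : D ≤ Cb c)
    (hmain : ∫ w in sq x ρ, ‖φ w‖ ^ 2 ≤ A * ρ ^ 2 * (∫ w in sq x ρ, V w * ‖φ w‖ ^ 2) +
      D * ρ ^ 2 * ∫ w in sq x ρ, gA Φ φ w) :
    ∫ w in sq x ρ, ‖φ w‖ ^ 2 ≤
      Cb c * ρ ^ 2 * ∫ w in sq x ρ, (gA Φ φ w + lapC Φ w * ‖φ w‖ ^ 2) := by
  have c1 := continuousOn_gA hΦ hφ
  have c2 := continuousOn_lapC (isOpen_strip a) hΦ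
  have c3 : ContinuousOn (fun w => ‖φ w‖ ^ 2) (strip a) :=
    (hφ.continuous.norm.pow 2).continuousOn
  have i1 := intOn h c1
  have i2 : IntegrableOn (fun w => lapC Φ w * ‖φ w‖ ^ 2) (sq x ρ) := intOn h (c2.mul c3)
  have i3 : IntegrableOn (fun w => V w * ‖φ w‖ ^ 2) (sq x ρ) := intOn h (hV.mul c3)
  have hsub : ∀ w ∈ sq x ρ, w ∈ strip a := fun w hw => Q_subset_strip h (sq_subset_Q x ρ hw)
  have j1 : ∫ w in sq x ρ, V w * ‖φ w‖ ^ 2 ≤ ∫ w in sq x ρ, lapC Φ w * ‖φ w‖ ^ 2 :=
    setIntegral_mono_on i3 i2 (measurableSet_sq x ρ) fun w hw =>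
      mul_le_mul_of_nonneg_right (hVΦ w (hsub w hw)) (by positivity)
  have j2 : 0 ≤ ∫ w in sq x ρ, V w * ‖φ w‖ ^ 2 :=
    setIntegral_nonneg (measurableSet_sq x ρ) fun w hw =>
      mul_nonneg (hV0 w (hsub w hw)) (by positivity)
  have j3 : 0 ≤ ∫ w in sq x ρ, gA Φ φ w :=
    setIntegral_nonneg (measurableSet_sq x ρ) fun w _ => by
      unfold gA
      positivity
  rw [integral_add i1 i2]
  refine hmain.trans ?_
  have k1 : A * ρ ^ 2 * (∫ w in sq x ρ, V w * ‖φ w‖ ^ 2) ≤
      Cb c * ρ ^ 2 * ∫ w in sq x ρ, lapC Φ w * ‖φ w‖ ^ 2 := by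
    refine mul_le_mul (mul_le_mul_of_nonneg_right hA (by positivity)) j1 j2 ?_
    have : 0 ≤ Cb c := hA0.trans hA
    positivity
  have k2 : D * ρ ^ 2 * (∫ w in sq x ρ, gA Φ φ w) ≤ Cb c * ρ ^ 2 * ∫ w in sq x ρ, gA Φ φ w :=
    mul_le_mul_of_nonneg_right (mul_le_mul_of_nonneg_right hD (by positivity)) j3
  linarith

theorem cell (hA : S_CELLA) (hB : S_CELLB) (hLK : S_LK) (hSZ : S_SZ) : S_CELL := by
  intro a c C L δ₀ ρ₀ k1 p B Φ J j k i i' φ ha hc hC hCL hp hcurv hρ1 hCρ hGS hi hi' hφ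
  set x : ℂ := B.ctr j i i' + 2 * Real.pi * k * Complex.I with hx
  set ρ : ℝ := B.rho j with hρdef
  have hρ : 0 < ρ := hp.rho_pos j
  have hα : 0 < alp J := hGS.pos
  have hxre : x.re = -B.a2 j + (i + 1 / 2) * ρ := by
    rw [hx]
    simp [BlockData.ctr, hρdef]
  have hxim : x.im = B.tau j + (i' + 1 / 2) * ρ + 2 * Real.pi * k := by
    rw [hx]
    simp [BlockData.ctr, hρdef]
  have hi1 : ((i : ℝ) + 1) * ρ ≤ 2 * B.a2 j := by
    rw [← hp.tile_s j]
    have : (i : ℝ) + 1 ≤ B.Ns j := by exact_mod_cast hi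
    exact mul_le_mul_of_nonneg_right this hρ.le
  have hi0 : 0 ≤ (i : ℝ) * ρ := by positivity
  have hi'0 : 0 ≤ (i' : ℝ) * ρ := by positivity
  have hside : |x.re| + ρ / 2 ≤ B.a2 j := by
    have h1 : |x.re| ≤ B.a2 j - ρ / 2 := by
      rw [hxre, abs_le]
      constructor <;> linarith
    linarith
  have ha2 := hp.a2_le j
  have hstr : |x.re| + ρ / 2 < a := by linarith
  have hτ := hp.tau_pos j
  have hΦ : ContDiffOn ℝ ∞ (Φ J) (strip a) := hcurv.smooth J hα.ne'
  have hss : strip a ⊆ strip (3 * a / 2) := by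
    intro w hw
    change |w.re| < 3 * a / 2
    have : |w.re| < a := hw
    linarith
  have hpc : ContinuousOn (lapC p) (strip a) :=
    (continuousOn_lapC (isOpen_strip _) hp.smooth).mono hss
  set V : ℂ → ℝ := fun w => lapC (Φ J) w - alp J * lapC p w with hV
  have hVc : ContinuousOn V (strip a) :=
    (continuousOn_lapC (isOpen_strip a) hΦ).sub (continuousOn_const.mul hpc)
  have hV0 : ∀ w ∈ strip a, 0 ≤ V w := hcurv.pos J hα
  have hVΦ : ∀ w ∈ strip a, V w ≤ lapC (Φ J) w := by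
    intro w hw
    have h1 := hp.p2 w (hss hw)
    have h2 := mul_nonneg hα.le h1
    change lapC (Φ J) w - alp J * lapC p w ≤ _
    linarith
  have hQs := Q_subset_strip hstr
  have hCb : 0 < 100 / c := by positivity
  by_cases hcase : ∫ w in Metric.ball x (ρ / 2), V w ≤ Real.pi / 10
  · -- case A
    have hflux : ∀ r, ρ / 4 < r → r < ρ / 2 →
        1 / 20 ≤ dZ ((∫ w in Metric.ball x r, lapC (Φ J) w) / (2 * Real.pi)) := by
      intro r hr1 hr2
      have hb : Metric.ball x r ⊆ sq x ρ := ball_subset_sq x hr2.le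
      have hb2 : Metric.ball x (ρ / 2) ⊆ sq x ρ := ball_subset_sq x le_rfl
      have i1 : IntegrableOn (fun w => alp J * lapC p w) (Metric.ball x r) :=
        (intOn hstr (continuousOn_const.mul hpc)).mono_set hb
      have i2 : IntegrableOn V (Metric.ball x r) := (intOn hstr hVc).mono_set hb
      have i3 : IntegrableOn V (Metric.ball x (ρ / 2)) := (intOn hstr hVc).mono_set hb2
      have e1 : ∫ w in Metric.ball x r, lapC (Φ J) w =
          alp J * (2 * Real.pi * (lam ^ k * B.eps j)) + ∫ w in Metric.ball x r, V w := by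
        rw [← (hLK a δ₀ ρ₀ p B hp).2 k j i i' hi hi' r hr1.le hr2.le, ← integral_const_mul,
          ← integral_add i1 i2]
        refine integral_congr_ae (Eventually.of_forall fun w => ?_)
        change lapC (Φ J) w = alp J * lapC p w + (lapC (Φ J) w - alp J * lapC p w)
        ring
      have e2 : 0 ≤ ∫ w in Metric.ball x r, V w :=
        setIntegral_nonneg measurableSet_ball fun w hw =>
          hV0 w (hQs (sq_subset_Q x ρ (hb hw)))
      have e3 : ∫ w in Metric.ball x r, V w ≤ ∫ w in Metric.ball x (ρ / 2), V w := by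
        refine setIntegral_mono_set i3 ?_ ?_
        · rw [EventuallyLE, ae_restrict_iff' measurableSet_ball]
          exact Eventually.of_forall fun w hw => hV0 w (hQs (sq_subset_Q x ρ (hb2 hw)))
        · exact (Metric.ball_subset_ball hr2.le).eventuallyLE
      have hπ := Real.pi_pos
      have e4 : (∫ w in Metric.ball x r, lapC (Φ J) w) / (2 * Real.pi) =
          alp J * lam ^ k * B.eps j + (∫ w in Metric.ball x r, V w) / (2 * Real.pi) := by
        rw [e1]
        field_simp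
      have e5 : |(∫ w in Metric.ball x r, V w) / (2 * Real.pi)| ≤ 1 / 20 := by
        rw [abs_of_nonneg (by positivity), div_le_iff₀ (by positivity)]
        linarith
      rw [e4]
      have e6 := dZ_add (alp J * lam ^ k * B.eps j)
        ((∫ w in Metric.ball x r, V w) / (2 * Real.pi))
      have e7 := hGS.res
      linarith
    have hmain := hA a (Φ J) φ x ρ hρ hΦ hφ hstr hflux
    refine final_bound hstr hΦ hφ hVc hV0 hVΦ (A := 0) (D := 100000) ?_ le_rfl ?_ ?_
    · unfold Cb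
      linarith
    · unfold Cb
      linarith
    · rw [zero_mul, zero_mul, zero_add]
      exact hmain
  · -- case B
    rw [not_le] at hcase
    have hc' : 0 < c * Real.pi / 40 := by positivity
    -- facts on the closed square
    have hQ1 : ∀ w ∈ Q x ρ, |w.re| ≤ 39 / 40 * a ∧ 2 * Real.pi * k ≤ w.im := by
      rintro w ⟨⟨h1, h2⟩, h3, h4⟩
      have h5 := le_abs_self x.re
      have h6 := neg_abs_le x.re
      refine ⟨?_, ?_⟩
      · rw [abs_le]
        constructor <;> linarith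
      · rw [hxim] at h3
        linarith
    have hL1 : 1 ≤ L := hC.trans hCL
    have hsz : ∀ t, 2 * Real.pi * k ≤ t → C * (1 + gF J t) ≤ uF J t ∧ 0 < uF J t := by
      intro t ht
      obtain ⟨s1, s2, s3, s4⟩ := hSZ.2.2 L B J j k t hL1 hGS ht
      refine ⟨?_, by linarith⟩
      refine le_trans (mul_le_mul_of_nonneg_right hCL ?_) s1
      unfold gF gf
      positivity
    have hmid : ∀ w ∈ Q x ρ, c * uF J w.im * k1 w.re ≤ V w ∧ V w ≤ uF J w.im * k1 w.re + C := by
      intro w hw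
      obtain ⟨h1, h2⟩ := hQ1 w hw
      exact hcurv.mid J hα w (hQs hw) h1 (hsz w.im h2).1
    have hk1 : ∀ s ∈ Icc (x.re - ρ / 2) (x.re + ρ / 2), s ∈ Ioo (-a) a := by
      rintro s ⟨h1, h2⟩
      have h5 := le_abs_self x.re
      have h6 := neg_abs_le x.re
      constructor <;> linarith
    have hk1c : ContinuousOn k1 (Icc (x.re - ρ / 2) (x.re + ρ / 2)) := hcurv.k1c.mono hk1
    have hle : x.re - ρ / 2 ≤ x.re + ρ / 2 := by linarith
    have hrow : ∀ t, x.im - ρ / 2 ≤ t → t < x.im + ρ / 2 →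
        c * Real.pi / 40 ≤ ρ * ∫ s in (x.re - ρ / 2)..(x.re + ρ / 2), V ⟨s, t⟩ := by
      intro t ht1 ht2
      have htk : 2 * Real.pi * k ≤ t := by
        rw [hxim] at ht1
        linarith
      obtain ⟨-, hu⟩ := hsz t htk
      obtain ⟨I, hI⟩ : ∃ I, I = ∫ s in (x.re - ρ / 2)..(x.re + ρ / 2), k1 s := ⟨_, rfl⟩
      -- the upper bound of the integral over the ball
      have cont1 : ContinuousOn (fun w : ℂ => 2 * uF J t * k1 w.re + C) (Q x ρ) := by
        refine (continuousOn_const.mul ?_).add continuousOn_const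
        exact hk1c.comp Complex.continuous_re.continuousOn fun w hw => hw.1
      have int1 : IntegrableOn (fun w : ℂ => 2 * uF J t * k1 w.re + C) (sq x ρ) :=
        (cont1.integrableOn_compact (isCompact_Q x ρ)).mono_set (sq_subset_Q x ρ)
      have hb2 : Metric.ball x (ρ / 2) ⊆ sq x ρ := ball_subset_sq x le_rfl
      have up1 : ∀ w ∈ sq x ρ, V w ≤ 2 * uF J t * k1 w.re + C := by
        intro w hw
        have hwQ := sq_subset_Q x ρ hw
        have h1 := (hmid w hwQ).2
        have h2 : uF J w.im ≤ 2 * uF J t := by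
          refine hSZ.2.1 J hα w.im t ?_
          obtain ⟨-, -, h3, h4⟩ := hw
          rw [abs_le]
          constructor <;> linarith
        have h3 : 0 ≤ k1 w.re := hcurv.k1nn _ (hk1 _ hwQ.1)
        have h4 := mul_le_mul_of_nonneg_right h2 h3
        linarith
      have int2 := intOn hstr hVc
      have up2 : ∫ w in Metric.ball x (ρ / 2), V w ≤ ∫ w in sq x ρ, (2 * uF J t * k1 w.re + C) := by
        refine le_trans (setIntegral_mono_set int2 ?_ hb2.eventuallyLE)
          (setIntegral_mono_on int2 int1 (measurableSet_sq x ρ) up1)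
        rw [EventuallyLE, ae_restrict_iff' (measurableSet_sq x ρ)]
        exact Eventually.of_forall fun w hw => hV0 w (hQs (sq_subset_Q x ρ hw))
      have up3 : ∫ w in sq x ρ, (2 * uF J t * k1 w.re + C) =
          (2 * uF J t * I + C * ρ) * ρ := by
        rw [integral_sq_re x hρ (fun s => 2 * uF J t * k1 s + C), intervalIntegral.integral_add,
          intervalIntegral.integral_const_mul, intervalIntegral.integral_const, ← hI, smul_eq_mul]
        · ring
        · exact (ContinuousOn.intervalIntegrable (by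
            rw [uIcc_of_le hle]
            exact continuousOn_const.mul hk1c))
        · exact intervalIntegrable_const
      have hρI : Real.pi / 40 ≤ ρ * uF J t * I := by
        have h1 := lt_of_lt_of_le hcase (up2.trans up3.le)
        have h2 : C * ρ ^ 2 ≤ Real.pi / 20 := hCρ
        nlinarith
      -- the lower bound on the row
      have hVrow : ContinuousOn (fun s : ℝ => V ⟨s, t⟩) (Icc (x.re - ρ / 2) (x.re + ρ / 2)) := by
        refine hVc.comp (f := fun s : ℝ => (⟨s, t⟩ : ℂ)) ?_ ?_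
        · have : (fun s : ℝ => (⟨s, t⟩ : ℂ)) = fun s : ℝ => (s : ℂ) + t * Complex.I := by
            funext s
            apply Complex.ext <;> simp
          rw [this]
          fun_prop
        · intro s hs
          exact hQs ⟨hs, ht1, ht2.le⟩
      have low : c * uF J t * I ≤ ∫ s in (x.re - ρ / 2)..(x.re + ρ / 2), V ⟨s, t⟩ := by
        rw [hI, ← intervalIntegral.integral_const_mul]
        refine intervalIntegral.integral_mono_on hle ?_ ?_ ?_
        · exact ContinuousOn.intervalIntegrable (by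
            rw [uIcc_of_le hle]
            exact continuousOn_const.mul hk1c)
        · exact ContinuousOn.intervalIntegrable (by
            rw [uIcc_of_le hle]
            exact hVrow)
        · intro s hs
          exact (hmid ⟨s, t⟩ ⟨hs, ht1, ht2.le⟩).1
      calc c * Real.pi / 40 = c * (Real.pi / 40) := by ring
        _ ≤ c * (ρ * uF J t * I) := mul_le_mul_of_nonneg_left hρI hc.le
        _ = ρ * (c * uF J t * I) := by ring
        _ ≤ _ := mul_le_mul_of_nonneg_left low hρ.le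
    have hmain := hB a (c * Real.pi / 40) (Φ J) V φ x ρ hρ hc' hΦ hφ hstr hVc
      (fun w hw => hV0 w (hQs (sq_subset_Q x ρ hw))) hrow
    refine final_bound hstr hΦ hφ hVc hV0 hVΦ (A := 80 / (c * Real.pi)) (D := 2) ?_
      (by positivity) ?_ ?_
    · unfold Cb
      have h1 : 80 / (c * Real.pi) ≤ 100 / c := by
        rw [div_le_div_iff₀ (by positivity) hc]
        have := Real.pi_gt_three
        nlinarith [mul_pos hc Real.pi_pos]
      linarith
    · unfold Cb
      linarith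
    · refine hmain.trans (le_of_eq ?_)
      congr 2
      field_simp
      norm_num

end Cell

theorem cell (hA : Pool.Agent.Helper95.AB.S_CELLA) (hB : Pool.Agent.Helper95.AB.S_CELLB)
    (hLK : Pool.Agent.Helper95.AB.S_LK) (hSZ : Pool.Agent.Helper95.AB.S_SZ) :
    Pool.Agent.Helper95.AB.S_CELL :=
  Cell.cell hA hB hLK hSZ

end Pool.Agent.Helper62.AB
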