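import Pool.Agent.Helper27.AB.PH3.Goals

/-! Project AB, module PH3, packet POLP: the potential. -/

set_option autoImplicit false

open MeasureTheory Set Filter Topology
open scoped ContDiff

noncomputable section

namespace Pool.Agent.Helper62.AB.POLP3

open Pool.Agent.Helper24.AB Pool.Agent.Helper15.AB Pool.Agent.Helper27.AB

theorem isOpen_strip (a : ℝ) : IsOpen (strip a) :=
  isOpen_lt (Complex.continuous_re.abs) continuous_const

theorem fd_smul (c : ℝ) (f : ℂ → ℝ) (z : ℂ) :
    fderiv ℝ (fun w => c * f w) z = c • fderiv ℝ f z := by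
  have h := congrFun (fderiv_const_smul_field (𝕜 := ℝ) (f := f) c) z
  exact h

theorem dS_smul (c : ℝ) (f : ℂ → ℝ) : dS (fun w => c * f w) = fun w => c * dS f w := by
  funext z
  unfold dS
  rw [fd_smul]
  rfl

theorem dT_smul (c : ℝ) (f : ℂ → ℝ) : dT (fun w => c * f w) = fun w => c * dT f w := by
  funext z
  unfold dT
  rw [fd_smul]
  rfl

theorem Dw_smul (c : ℝ) (f : ℂ → ℝ) (w : List Bool) :
    Dw w (fun z => c * f z) = fun z => c * Dw w f z := by
  induction w with
  | nil => rfl
  | cons b w ih =>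
    cases b
    · show dS (Dw w (fun z => c * f z)) = fun z => c * dS (Dw w f) z
      rw [ih, dS_smul]
    · show dT (Dw w (fun z => c * f z)) = fun z => c * dT (Dw w f) z
      rw [ih, dT_smul]

theorem fd_per (f : ℂ → ℝ) (c : ℂ) (r : ℝ) (h : ∀ z, f (z + c) = r * f z) (z : ℂ) :
    fderiv ℝ f (z + c) = r • fderiv ℝ f z := by
  have h1 : fderiv ℝ (fun w => f (w + c)) z = fderiv ℝ f (z + c) := fderiv_comp_add_right c
  have h2 : (fun w => f (w + c)) = fun w => r * f w := funext h
  rw [← h1, h2, fd_smul]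

theorem Dw_per (f : ℂ → ℝ) (c : ℂ) (r : ℝ) (h : ∀ z, f (z + c) = r * f z) (w : List Bool) :
    ∀ z, Dw w f (z + c) = r * Dw w f z := by
  induction w with
  | nil => exact h
  | cons b w ih =>
    intro z
    cases b
    · show fderiv ℝ (Dw w f) (z + c) 1 = r * fderiv ℝ (Dw w f) z 1
      rw [fd_per _ c r ih]
      rfl
    · show fderiv ℝ (Dw w f) (z + c) Complex.I = r * fderiv ℝ (Dw w f) z Complex.I
      rw [fd_per _ c r ih]
      rfl

theorem Dw_smooth {O : Set ℂ} (hO : IsOpen O) {f : ℂ → ℝ} (h : ContDiffOn ℝ ∞ f O) (w : List Bool) :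
    ContDiffOn ℝ ∞ (Dw w f) O := by
  induction w with
  | nil => exact h
  | cons b w ih =>
    have h1 : ContDiffOn ℝ ∞ (fderiv ℝ (Dw w f)) O := ih.fderiv_of_isOpen hO (by simp)
    cases b
    · exact h1.clm_apply contDiffOn_const
    · exact h1.clm_apply contDiffOn_const

theorem lam_pos : 0 < lam := by
  unfold lam
  positivity

theorem exp_kap : Real.exp (kap * (2 * Real.pi)) = lam := by
  unfold kap
  rw [div_mul_cancel₀ _ (by positivity), Real.exp_log lam_pos]

/-- a function on the strip with multiplier `lam` -/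
theorem bound {a : ℝ} (ha : 0 < a) {f : ℂ → ℝ} (hf : ContinuousOn f (strip (3 * a / 2)))
    (hper : ∀ z, f (z + 2 * Real.pi * Complex.I) = lam * f z) :
    ∃ M : ℝ, 0 ≤ M ∧ ∀ z ∈ strip a, |f z| ≤ M * Real.exp (kap * z.im) := by
  let g : ℂ → ℝ := fun z => f z * Real.exp (-(kap * z.im))
  have him : ∀ z : ℂ, (z + 2 * Real.pi * Complex.I).im = z.im + 2 * Real.pi := by
    intro z
    simp
  have hg : Function.Periodic g (2 * Real.pi * Complex.I) := by
    intro z
    show f (z + 2 * Real.pi * Complex.I) * Real.exp (-(kap * (z + 2 * Real.pi * Complex.I).im))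
      = f z * Real.exp (-(kap * z.im))
    rw [hper, him]
    have h1 : -(kap * (z.im + 2 * Real.pi)) = -(kap * z.im) + -(kap * (2 * Real.pi)) := by ring
    rw [h1, Real.exp_add, Real.exp_neg (kap * (2 * Real.pi)), exp_kap]
    have := lam_pos.ne'
    field_simp
  have hgc : ContinuousOn g (strip (3 * a / 2)) := by
    refine hf.mul (Continuous.continuousOn ?_)
    exact Real.continuous_exp.comp ((continuous_const.mul Complex.continuous_im).neg)
  have hK : IsCompact (Icc (-a) a ×ℂ Icc 0 (2 * Real.pi)) := isCompact_Icc.reProdIm isCompact_Icc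
  have hsub : (Icc (-a) a ×ℂ Icc 0 (2 * Real.pi)) ⊆ strip (3 * a / 2) := by
    intro z hz
    have h1 : z.re ∈ Icc (-a) a := hz.1
    show |z.re| < 3 * a / 2
    have : |z.re| ≤ a := abs_le.mpr h1
    linarith
  obtain ⟨M, hM⟩ := hK.exists_bound_of_continuousOn (hgc.mono hsub)
  have hgM : ∀ z ∈ strip a, |g z| ≤ M := by
    intro z hz
    have h2 := hg.sub_zsmul_eq (x := z) ⌊z.im / (2 * Real.pi)⌋
    set k : ℤ := ⌊z.im / (2 * Real.pi)⌋ with hk
    rw [← h2]
    have hpi : 0 < 2 * Real.pi := by positivity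
    have h3 := Int.floor_le (z.im / (2 * Real.pi))
    have h4 := Int.lt_floor_add_one (z.im / (2 * Real.pi))
    rw [← hk] at h3 h4
    rw [le_div_iff₀ hpi] at h3
    rw [div_lt_iff₀ hpi] at h4
    have hre : (z - k • (2 * Real.pi * Complex.I)).re = z.re := by
      simp
    have him2 : (z - k • (2 * Real.pi * Complex.I)).im = z.im - k * (2 * Real.pi) := by
      simp
    refine hM _ ⟨?_, ?_⟩
    · show (z - k • (2 * Real.pi * Complex.I)).re ∈ Icc (-a) a
      rw [hre]
      exact abs_le.mp (le_of_lt hz)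
    · show (z - k • (2 * Real.pi * Complex.I)).im ∈ Icc 0 (2 * Real.pi)
      rw [him2]
      exact ⟨by linarith, by linarith⟩
  have hM0 : 0 ≤ M := by
    have := hgM 0 (by show |(0 : ℂ).re| < a; simpa using ha)
    exact (abs_nonneg _).trans this
  refine ⟨M, hM0, fun z hz => ?_⟩
  have h5 : f z = g z * Real.exp (kap * z.im) := by
    show f z = f z * Real.exp (-(kap * z.im)) * Real.exp (kap * z.im)
    rw [mul_assoc, ← Real.exp_add]
    simp
  rw [h5, abs_mul, abs_of_pos (Real.exp_pos _)]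
  exact mul_le_mul_of_nonneg_right (hgM z hz) (Real.exp_pos _).le

/-- Packet POLP. -/
theorem polp : S_POLP := by
  intro a δ₀ ρ₀ p B ha hp m
  have hsub : strip a ⊆ strip (3 * a / 2) := by
    intro z hz
    have h1 : |z.re| < a := hz
    show |z.re| < 3 * a / 2
    linarith
  refine ⟨fun q => contDiffOn_const.mul (hp.smooth.mono hsub), fun w _ => ?_⟩
  have hsm := Dw_smooth (isOpen_strip (3 * a / 2)) hp.smooth w
  obtain ⟨M, hM0, hM⟩ := bound ha hsm.continuousOn (Dw_per p _ lam hp.p1 w)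
  refine ⟨M, 1, fun q z hz => ?_⟩
  rw [Dw_smul]
  show |q.1.1 * Dw w p z| ≤ M * WP q z.im ^ 1
  rw [abs_mul, pow_one]
  have h1 : |q.1.1| * Real.exp (kap * z.im) ≤ WP q z.im := by
    have h2 : |q.1.1| * Real.exp (kap * z.im) = |uf q.1.1 z.im| := by
      unfold uf
      rw [abs_mul, abs_of_pos (Real.exp_pos _)]
    rw [h2]
    unfold WP Wf
    have h3 := abs_nonneg (vf q.1.2.1 z.im)
    have h4 := abs_nonneg q.1.2.2
    linarith
  calc |q.1.1| * |Dw w p z| ≤ |q.1.1| * (M * Real.exp (kap * z.im)) :=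
        mul_le_mul_of_nonneg_left (hM z hz) (abs_nonneg _)
    _ = M * (|q.1.1| * Real.exp (kap * z.im)) := by ring
    _ ≤ M * WP q z.im := mul_le_mul_of_nonneg_left h1 hM0

end Pool.Agent.Helper62.AB.POLP3
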